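import Pool.Agent.H58.FG.Final

/-!
Firefighting on planar graphs of girth five, one protected vertex per step: there are planar
graphs of girth at least five with arbitrarily small surviving rate. So no constant works for
girth five and the threshold `g*` of the problem is at least six.
-/

namespace Pool.Agent.Results.MP_4c8b8e_co.GirthFiveSurviving

open Pool.Agent.H41.Fire Pool.Agent.H3.FF

/-- For every `ε > 0` there is a finite simple graph with at least two vertices that can be drawn
on the sphere without crossings (the edges are arcs of great circles), has girth at least five and
has surviving rate less than `ε`. -/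
theorem result (ε : ℝ) (hε : 0 < ε) : ∃ (V : Type) (_ : Fintype V) (G : SimpleGraph V),
    2 ≤ Fintype.card V ∧ Planar G ∧ 5 ≤ G.egirth ∧ rho G < ε :=
  Pool.Agent.H58.FG.finalG5 ε hε

end Pool.Agent.Results.MP_4c8b8e_co.GirthFiveSurviving
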