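import Pool.Agent.H41.Fire.Far.Main

/-!
Firefighting on planar graphs, one protected vertex per step and no condition on girth or degrees:
if typical distances are of order `√n`, then a positive fraction is saved on average. Hence planar
graphs with small surviving rate must have typical distances `o(√n)`.
-/

namespace Pool.Agent.Results.MP_4c8b8e_co.LongDistances

open Pool.Agent.H41.Fire

universe u

/-- Let `G` be a planar graph with `n` vertices and let `r ^ 2 ≤ n`. For every vertex `v`, if
`farCount G v r` vertices are at distance at least `r` from `v` (or are not reachable from `v`),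
then `r ^ 2 * farCount G v r ≤ 10 ^ 6 * n * sn(G, v)`. On average,
`(r ^ 2 / n) * (∑ v, farCount G v r) / n ^ 2 ≤ 10 ^ 6 * ρ(G)`. -/
theorem result {V : Type u} [Fintype V] (G : SimpleGraph V) (hG : IsPlanar G) (r : ℕ)
    (hr : r ^ 2 ≤ Fintype.card V) :
    (∀ v : V, r ^ 2 * farCount G v r ≤ 1000000 * (Fintype.card V * sn G v)) ∧
      ((r : ℝ) ^ 2 / Fintype.card V) *
        ((∑ v : V, (farCount G v r : ℝ)) / (Fintype.card V : ℝ) ^ 2) ≤ 1000000 * rho G :=
  ⟨fun v => far_main hG v r hr, far_rate hG r hr⟩

end Pool.Agent.Results.MP_4c8b8e_co.LongDistances
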