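import Pool.Agent.H41.Fire.Sep.Final

/-!
Planar graphs without cycles of length four (in particular of girth at least five) that have small
treewidth or small radius: one firefighter per step saves almost everything on average.
-/

namespace Pool.Agent.Results.MP_4c8b8e_co.SmallTreewidth

open Pool.Agent.H41.Fire

universe u

/-- Let `m` be a number and `ε > 0`. There is `N` such that `ρ(G) ≥ 1 - ε` for every planar graph
`G` with `n ≥ N` vertices such that (1) `G` has girth at least five, or any two distinct vertices
have fewer than `m` common neighbours, and (2) `G` has treewidth at most `t` or radius at most `t`,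
for some `t` with `2 ^ ((2 t + 2) ^ 4) ≤ n`. -/
theorem result (m : ℕ) (ε : ℝ) (hε : 0 < ε) : ∃ N : ℕ, ∀ (V : Type u) [Fintype V]
    (G : SimpleGraph V) (t : ℕ), IsPlanar G → (5 ≤ G.egirth ∨ NoK2 G m) →
      (TreewidthLE G t ∨ RadiusLE G t) → N ≤ Fintype.card V →
      2 ^ ((2 * t + 2) ^ 4) ≤ Fintype.card V → 1 - ε ≤ rho G := by
  obtain ⟨N, hN⟩ := rate_HS.{u} (m + 2) ε hε
  refine ⟨N, ?_⟩
  intro V _ G t hG h4 h hn hn2
  have h5 : NoK2 G (m + 2) := by
    rcases h4 with h4 | h4
    · intro x y hxy D hD
      have := noK2_of_girth h4 x y hxy D hD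
      omega
    · intro x y hxy D hD
      have := h4 x y hxy D hD
      omega
  rcases h with h | h
  · refine hN V G (t + 1) hG h5 (HS_of_treewidth h) hn (le_trans ?_ hn2)
    exact Nat.pow_le_pow_right (by norm_num) (Nat.pow_le_pow_left (by omega) _)
  · exact hN V G (2 * t + 2) hG h5 (HS_radius hG h) hn hn2

end Pool.Agent.Results.MP_4c8b8e_co.SmallTreewidth
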