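import Pool.Agent.H41.Fire.Main

/-!
One firefighter per step saves a positive fraction of every planar graph of maximum degree at most
three, wherever the fire starts.
-/

namespace Pool.Agent.Results.MP_4c8b8e_co.SubcubicPlanar

open Pool.Agent.H41.Fire

universe u

/-- Let `G` be a planar graph with `n ≥ 2` vertices and maximum degree at most three (no condition
on the girth). Then `n ≤ 18 sn(G, v) + 4` for every vertex `v`, and `ρ(G) ≥ 1/22`. -/
theorem result {V : Type u} [Fintype V] (G : SimpleGraph V) (hG : IsPlanar G)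
    (hdeg : ∀ w : V, Nat.card (G.neighborSet w) ≤ 3) (hn : 2 ≤ Fintype.card V) :
    (∀ v : V, Fintype.card V ≤ 18 * sn G v + 4) ∧ (1 / 22 : ℝ) ≤ rho G := by
  have h1 : ∀ v : V, Fintype.card V ≤ 18 * sn G v + 4 := fun v => main hG hdeg hn v
  refine ⟨h1, ?_⟩
  have h2 : ∀ v : V, (Fintype.card V : ℝ) / 22 ≤ (sn G v : ℝ) := by
    intro v
    have h3 := h1 v
    have h4 := one_le_sn (G := G) v hn
    have h5 : Fintype.card V ≤ 22 * sn G v := by omega
    have h6 : (Fintype.card V : ℝ) ≤ 22 * (sn G v : ℝ) := by exact_mod_cast h5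
    linarith
  have h3 : (Fintype.card V : ℝ) * ((Fintype.card V : ℝ) / 22) ≤ ∑ v : V, (sn G v : ℝ) := by
    have := Finset.card_nsmul_le_sum (Finset.univ : Finset V) (fun v => (sn G v : ℝ))
      ((Fintype.card V : ℝ) / 22) (fun v _ => h2 v)
    rw [nsmul_eq_mul, Finset.card_univ] at this
    exact this
  have hpos : (0 : ℝ) < (Fintype.card V : ℝ) := by
    have : 0 < Fintype.card V := by omega
    exact_mod_cast this
  unfold rho
  rw [le_div_iff₀ (by positivity)]
  calc (1 / 22 : ℝ) * (Fintype.card V : ℝ) ^ 2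
      = (Fintype.card V : ℝ) * ((Fintype.card V : ℝ) / 22) := by ring
    _ ≤ _ := h3

end Pool.Agent.Results.MP_4c8b8e_co.SubcubicPlanar
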